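import Pool.Agent.N600.G3.Stm
import Pool.Agent.H746UG.JN

/-!
Project G3 (helper600), part ALG: valued sections of metabelian groups.
Lean proof: helper768, on the library of helper746 (`Pool.Agent.H746UG`).
-/

set_option autoImplicit false

namespace Pool.Agent.N768.G3

open Pool.Agent.N600.G3 Pool.Agent.H746UG Subgroup
open scoped IsMulCommutative commutatorElement

universe u

/-- the derived subgroup is the normal closure of the commutators of the generators (copied from
`Pool.Agent.H746UG.MetMain`) -/
lemma commutator_eq_nc {G : Type*} [Group G] (S : Set G) (hgen : Subgroup.closure S = ⊤) :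
    commutator G = normalClosure ((fun p : G × G => p.1 * p.2 * p.1⁻¹ * p.2⁻¹) '' (S ×ˢ S)) := by
  set E : Set G := (fun p : G × G => p.1 * p.2 * p.1⁻¹ * p.2⁻¹) '' (S ×ˢ S) with hE
  apply le_antisymm
  · have hgen' : (⊤ : Subgroup (G ⧸ normalClosure E)) =
        Subgroup.closure (QuotientGroup.mk' (normalClosure E) '' S) := by
      rw [← MonoidHom.map_closure, hgen, ← MonoidHom.range_eq_map,
        MonoidHom.range_eq_top_of_surjective _ (QuotientGroup.mk'_surjective _)]
    have h1 : ∀ s ∈ S, (⊤ : Subgroup (G ⧸ normalClosure E)) ≤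
        Subgroup.centralizer {QuotientGroup.mk' (normalClosure E) s} := by
      intro s hs
      rw [hgen', Subgroup.closure_le]
      rintro _ ⟨t, ht, rfl⟩
      rw [SetLike.mem_coe, Subgroup.mem_centralizer_singleton_iff]
      have h3 : s * t * s⁻¹ * t⁻¹ ∈ normalClosure E :=
        Subgroup.subset_normalClosure ⟨(s, t), ⟨hs, ht⟩, rfl⟩
      have h5 : QuotientGroup.mk' (normalClosure E) s * QuotientGroup.mk' (normalClosure E) t *
          (QuotientGroup.mk' (normalClosure E) s)⁻¹ *
          (QuotientGroup.mk' (normalClosure E) t)⁻¹ = 1 := (QuotientGroup.eq_one_iff _).mpr h3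
      have h6 := mul_inv_eq_one.mp h5
      rw [mul_inv_eq_iff_eq_mul] at h6
      exact h6.symm
    have h2 : (⊤ : Subgroup (G ⧸ normalClosure E)) ≤ center _ := by
      rw [hgen', Subgroup.closure_le]
      rintro _ ⟨s, hs, rfl⟩
      rw [SetLike.mem_coe, mem_center_iff]
      intro g
      exact Subgroup.mem_centralizer_singleton_iff.mp (h1 s hs (mem_top g))
    rw [commutator_def, Subgroup.commutator_le]
    intro g _ h _
    rw [commutatorElement_def, ← QuotientGroup.eq_one_iff]
    have h3 := mem_center_iff.mp (h2 (mem_top (QuotientGroup.mk g : G ⧸ normalClosure E)))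
      (QuotientGroup.mk h)
    rw [QuotientGroup.mk_mul, QuotientGroup.mk_mul, QuotientGroup.mk_mul, ← h3,
      QuotientGroup.mk_inv, QuotientGroup.mk_inv]
    group
  · apply Subgroup.normalClosure_le_normal
    rintro _ ⟨⟨s, t⟩, _, rfl⟩
    exact Subgroup.commutator_mem_commutator (mem_top s) (mem_top t)

/-- the abelianization has full centre -/
lemma center_top (M : Type*) [Group M] : center (M ⧸ commutator M) = ⊤ := by
  rw [eq_top_iff]
  intro x _
  rw [mem_center_iff]
  intro y
  obtain ⟨a, rfl⟩ := QuotientGroup.mk_surjective x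
  obtain ⟨b, rfl⟩ := QuotientGroup.mk_surjective y
  rw [← QuotientGroup.mk_mul, ← QuotientGroup.mk_mul, QuotientGroup.eq]
  have e : (b * a)⁻¹ * (a * b) = ⁅a⁻¹, b⁻¹⁆ := by
    rw [commutatorElement_def]; group
  rw [e]
  exact Subgroup.commutator_mem_commutator (mem_top _) (mem_top _)

theorem t_alg (h1 : S_CA.{u}) (h2 : S_INT.{u}) (h3 : S_VAL.{u}) : S_ALG.{u} := by
  intro M _ _ hab hnfg
  classical
  have hNc : IsMulCommutative (commutator M) :=
    ⟨⟨fun a b => Subtype.ext (hab a a.2 b b.2)⟩⟩
  have hcen := center_top M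
  have hfi : FiniteIndex (center (M ⧸ commutator M)) := by
    rw [hcen]; infer_instance
  obtain ⟨S, hS⟩ := (Group.FG.out : (⊤ : Subgroup M).FG)
  have hNE := commutator_eq_nc (S : Set M) hS
  have hmf : Module.Finite (RR (commutator M)) (Additive (commutator M)) :=
    mod_finite (commutator M) _ ((S.finite_toSet.prod S.finite_toSet).image _) hNE
  have hno : IsNoetherianRing (RR (commutator M)) := RR_noetherian (commutator M)
  have hnz : ¬ Module.Finite ℤ (Additive (commutator M)) :=
    fun h => hnfg (fg_of_finite (commutator M) h)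
  obtain ⟨P, hP, hPf, F, iF, φ, f0, hker, hlin, hne⟩ :=
    h1 (RR (commutator M)) (Additive (commutator M)) hnz
  have hVfg : Group.FG (center (M ⧸ commutator M)) := inferInstance
  have hspan : Submodule.span ℤ (Set.range (qq (commutator M))) = ⊤ := by
    rw [eq_top_iff]
    intro r _
    refine RR_induct (commutator M)
      (P := fun r => r ∈ Submodule.span ℤ (Set.range (qq (commutator M)))) ?_ ?_ ?_ r
    · exact fun z => Submodule.subset_span ⟨z, rfl⟩
    · exact fun x y hx hy => Submodule.add_mem _ hx hy
    · exact fun n x hx => Submodule.smul_mem _ n hx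
  obtain ⟨x, hx⟩ := h2 (RR (commutator M)) (center (M ⧸ commutator M)) (qq (commutator M)) hspan
    P hPf
  have hx2 : ¬ IsIntegral ℤ (φ (qq (commutator M) x)) := by
    intro h
    apply hx
    have hle : ∀ a ∈ P, φ a = 0 := fun a ha => by
      rw [← hker] at ha
      exact (RingHom.mem_ker).1 ha
    have hinj : Function.Injective (Ideal.Quotient.lift P φ hle) :=
      RingHom.lift_injective_of_ker_le_ideal P hle (le_of_eq hker)
    have h4 := (isIntegral_algHom_iff (Ideal.Quotient.lift P φ hle).toIntAlgHom hinj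
      (x := Ideal.Quotient.mk P (qq (commutator M) x))).1
    exact h4 h
  obtain ⟨Γ₀, iΓ, v, hv⟩ := h3 F (φ (qq (commutator M) x)) hx2
  let z : M →* center (M ⧸ commutator M) :=
    { toFun := fun m => ⟨QuotientGroup.mk m, by rw [hcen]; trivial⟩
      map_one' := rfl
      map_mul' := fun _ _ => rfl }
  let χ : M →* Fˣ := (((φ : RR (commutator M) →* F).comp (qq (commutator M))).comp z).toHomUnits
  have hχ : ∀ m, ((χ m : Fˣ) : F) = φ (qq (commutator M) (z m)) := fun m => rfl
  refine ⟨F, iF, Γ₀, iΓ, v, χ, fun m => if h : m ∈ commutator M then f0 (el _ m h) else 0,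
    ?_, ?_, ?_, ?_⟩
  · intro a ha b hb
    simp only [ha, hb, mul_mem ha hb, dif_pos]
    rw [← map_add]
    rfl
  · intro m a ha
    have hc : m * a * m⁻¹ ∈ commutator M := (inferInstance : (commutator M).Normal).conj_mem a ha m
    simp only [ha, hc, dif_pos]
    rw [hχ, ← hlin]
    congr 1
    have h5 := qq_smul (commutator M) m (by rw [hcen]; trivial) (el _ a ha)
    refine Eq.trans ?_ h5.symm
    apply val_inj
    rw [val_th, val_el, val_el]
  · obtain ⟨a, ha⟩ : ∃ a, f0 a ≠ 0 := by
      by_contra hcon
      push Not at hcon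
      exact hne (AddMonoidHom.ext hcon)
    refine ⟨val _ a, val_mem a, ?_⟩
    simp only [val_mem a, dif_pos]
    exact ha
  · obtain ⟨m, hm⟩ := QuotientGroup.mk_surjective (x : M ⧸ commutator M)
    refine ⟨m, ?_⟩
    have hzx : z m = x := Subtype.ext hm
    rw [hχ, hzx]
    exact hv.ne'

end Pool.Agent.N768.G3
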